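import Pool.Agent.U559.QS.Fin

/-!
# MP_d136d9_an, Q1: quantitative weak sequential completeness of Lipschitz-free spaces

`FreeSp 𝕜 M o` is the Lipschitz-free space `F(M)` over `𝕜 = ℝ` or `ℂ`, the closed linear span of the
evaluation functionals in the dual of `Lip_0(M)`; `caQ`, `deltaQ` and `wckQ` are the quantities
`ca(x_n)`, `δ(x_n)` and `wck_X(x_n)` of the problem, with values in `[0, ∞]`.

Proof. Let `(y_n)` be bounded in `F(M)` with distance greater than `s` from the span of the
evaluations at each finite set. Approximate `y_n` by finitely supported elements `z_n` and choose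
functionals `F_n` in the unit ball, with `F_n(y_n) ≥ s`, which vanish at the supports of
`z_0, …, z_{n-1}`. For a finite set `A` the functions `x ↦ F_n(x)`, cut off at distance comparable to
`dist(x, A)`, are small outside a neighbourhood of `A`, and for all but boundedly many scales of the
neighbourhood the element `z_n` gives little mass to the boundary layer. Passing to a subsequence either
the humps of `F_n` near the support of `z_n` can be given disjoint supports that are far apart in
comparison with their heights, or the mass escapes to infinity, where cut-offs relative to the distance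
from the base point are used. In both cases every sequence of scalars `|σ_n| ≤ 1` is interpolated: there
is a functional `F` in the unit ball with `|F(y_n) - σ_n γ_n| ≤ ε` on a subsequence and
`γ_n ≥ (s - ε) / 60` (`Pool.Agent.U559.QS.far`). So `δ ≥ s / 30`, and a sequence with small `δ` is
close to a bounded sequence in a finite dimensional space.
-/

set_option autoImplicit false

universe u v

namespace Pool.Agent.Results.MP_d136d9_an.QuantitativeSchurAndWSC

open Pool.Agent.U559.QS

/-- Let `𝕜` be `ℝ` or `ℂ` and let `M` be a uniformly separated pointed metric space, bounded or not.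
Then every bounded sequence in `F(M)` satisfies `ca(x_n) ≤ 121 δ(x_n)` and
`wck(x_n) ≤ 121 δ(x_n)`. -/
theorem result (𝕜 : Type v) [RCLike 𝕜] (M : Type u) [MetricSpace M] (o : M)
    (hM : UniformlySeparated M) (x : ℕ → FreeSp 𝕜 M o) (hx : ∃ B : ℝ, ∀ n, ‖x n‖ ≤ B) :
    caQ x ≤ 121 * deltaQ 𝕜 x ∧ wckQ 𝕜 x ≤ 121 * deltaQ 𝕜 x :=
  ⟨schur hM x hx, wsc hM x hx⟩

end Pool.Agent.Results.MP_d136d9_an.QuantitativeSchurAndWSC
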